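import Pool.Agent.MP_b9875a_co.H99.Spec2

set_option autoImplicit false

namespace Pool.Agent.MP_b9875a_co.H99.LN

open Finset

namespace LowerAux

variable {V α : Type} [DecidableEq V]

theorem adm_mono {S : Finset V} {θ : ℕ} {dem c c' : V → ℕ} {tl hd : α → V} {D : Finset α}
    (h : ∀ v ∈ S, c v ≤ c' v) (ha : Adm S θ dem c tl hd D) : Adm S θ dem c' tl hd D := by
  intro X hX hθ
  refine (ha X hX hθ).trans ?_
  unfold mval
  exact sum_le_sum fun v hv => min_le_min_right _ (h v (hX hv))

theorem mval_dec (c : V → ℕ) (tl hd : α → V) (D : Finset α) (X : Finset V) (v : V) :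
    mval c tl hd D X ≤ mval (Function.update c v (c v - 1)) tl hd D X + 1 := by
  unfold mval
  calc _ ≤ ∑ w ∈ X, (min (Function.update c v (c v - 1) w) (ex tl hd D w X) +
        if w = v then 1 else 0) := by
        refine sum_le_sum fun w _ => ?_
        by_cases hw : w = v
        · subst hw
          rw [Function.update_self, if_pos rfl]
          omega
        · rw [Function.update_of_ne hw, if_neg hw]
          omega
    _ ≤ _ := by
        rw [sum_add_distrib, sum_ite_eq']
        split_ifs <;> omega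

theorem step (tl hd : α → V) (D : Finset α) (S : Finset V) (dem ct : V → ℕ) (θ : ℕ) :
    ∀ (n : ℕ) (c : V → ℕ), ∑ v ∈ S, (c v - ct v) ≤ n → (∀ v, ct v ≤ c v) →
    Adm S θ dem c tl hd D →
    Adm S θ dem ct tl hd D ∨ ∃ (c2 : V → ℕ) (Z : Finset V), (∀ v, ct v ≤ c2 v ∧ c2 v ≤ c v) ∧
      Adm S θ dem c2 tl hd D ∧ Z ⊆ S ∧ Z ≠ S ∧ θ ≤ Z.card ∧
      mval c2 tl hd D Z ≤ ∑ v ∈ S \ Z, dem v := by
  intro n
  induction n with
  | zero =>
    intro c hn _ ha
    refine Or.inl (adm_mono (fun v hv => ?_) ha)
    have := single_le_sum (f := fun v => c v - ct v) (fun _ _ => Nat.zero_le _) hv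
    omega
  | succ n ih =>
    intro c hn hc ha
    by_cases hall : ∀ v ∈ S, c v ≤ ct v
    · exact Or.inl (adm_mono hall ha)
    push Not at hall
    obtain ⟨v, hv, hlt⟩ := hall
    have hle : ∀ w, Function.update c v (c v - 1) w ≤ c w := by
      intro w
      by_cases hw : w = v
      · subst hw
        rw [Function.update_self]
        omega
      · rw [Function.update_of_ne hw]
    have hge : ∀ w, ct w ≤ Function.update c v (c v - 1) w := by
      intro w
      by_cases hw : w = v
      · subst hw
        rw [Function.update_self]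
        omega
      · rw [Function.update_of_ne hw]
        exact hc w
    by_cases ha' : Adm S θ dem (Function.update c v (c v - 1)) tl hd D
    · have hs : ∑ w ∈ S, (Function.update c v (c v - 1) w - ct w) < ∑ w ∈ S, (c w - ct w) := by
        refine sum_lt_sum (fun w _ => Nat.sub_le_sub_right (hle w) _) ⟨v, hv, ?_⟩
        rw [Function.update_self]
        omega
      rcases ih _ (by omega) hge ha' with h | ⟨c2, Z, h1, h2⟩
      · exact Or.inl h
      · exact Or.inr ⟨c2, Z, fun w => ⟨(h1 w).1, (h1 w).2.trans (hle w)⟩, h2⟩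
    · unfold Adm at ha'
      push Not at ha'
      obtain ⟨Z, hZ, hθ, hlt'⟩ := ha'
      refine Or.inr ⟨c, Z, fun w => ⟨hc w, le_rfl⟩, ha, hZ, ?_, hθ, ?_⟩
      · rintro rfl
        simp at hlt'
      · have := mval_dec c tl hd D Z v
        omega

end LowerAux

theorem lower : LowerStmt := by
  intro V α _ tl hd D S dem c ct θ _ hc ha
  rcases LowerAux.step tl hd D S dem ct θ _ c le_rfl hc ha with h | ⟨c2, Z, h1, h2, h3, h4, h5, h6⟩
  · exact Or.inl h
  refine Or.inr ⟨fun v => if v ∈ Z ∧ ex tl hd D v Z < c2 v then c v else c2 v, Z, fun v => ?_,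
    LowerAux.adm_mono (fun v _ => ?_) h2, h3, h4, h5, le_trans (le_of_eq ?_) h6, fun v hv h => ?_⟩
  · have := h1 v
    dsimp only
    split_ifs <;> omega
  · have := h1 v
    split_ifs <;> omega
  · unfold mval
    refine sum_congr rfl fun v _ => ?_
    have := h1 v
    dsimp only
    split_ifs <;> omega
  · dsimp only at h ⊢
    by_cases hx : ex tl hd D v Z < c2 v
    · rw [if_pos ⟨hv, hx⟩]
    · rw [if_neg (fun h' => hx h'.2)] at h
      exact absurd h hx

end Pool.Agent.MP_b9875a_co.H99.LN
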